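import Mathlib

set_option autoImplicit false

namespace Pool.Agent.Results.MP_e73581_co.Cex

open Matrix Module

/-- `C` is an MRD code of minimum distance `d`. -/
def MRD {F : Type} [Field F] [Fintype F] {n : ℕ} (C : AddSubgroup (Matrix (Fin n) (Fin n) F))
    (d : ℕ) : Prop :=
  IsLeast {r | ∃ X ∈ C, ∃ Y ∈ C, X ≠ Y ∧ (X - Y).rank = r} d ∧
    Nat.card C = Fintype.card F ^ (n * (n - d + 1))

abbrev M := Matrix (Fin 4) (Fin 4) (ZMod 2)

def mat (t k : ℕ) : M := fun i j => if t.testBit (16 * k + 4 * i + j) then 1 else 0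

def φ : M →+ Fin 4 → ZMod 2 := AddMonoidHom.mk'
  (fun X k => ∑ i, ∑ j, mat 0xdb13f6b7ecfb8421 k i j * X i j) fun X Y => by
    funext k
    simp [mul_add, Finset.sum_add_distrib]

theorem card : Nat.card φ.ker = 2 ^ 12 := by
  have a := φ.ker.card_eq_card_quotient_mul_card_addSubgroup
  rw [Nat.card_congr (QuotientAddGroup.quotientKerEquivOfSurjective φ fun y =>
    ⟨∑ k : Fin 4, y k • mat 0xe000400080003 k, by revert y; decide +kernel⟩).toEquiv] at a
  have b : Nat.card M = 2 ^ 16 := by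
    rw [Nat.card_congr of.symm]
    simp
  have c : Nat.card (Fin 4 → ZMod 2) = 16 := by simp
  rw [b, c] at a
  omega

theorem two (X : M) (h : φ X = 0) (n : X ≠ 0) : 2 ≤ X.rank := by
  by_contra l
  rw [rank_eq_finrank_span_cols] at l
  obtain ⟨⟨v, _⟩, hv⟩ := finrank_le_one_iff.1 (Nat.le_of_lt_succ (not_le.1 l))
  choose c hc using fun j => hv ⟨_, Submodule.subset_span ⟨j, rfl⟩⟩
  have e : X = of fun i j => c j * v i := by
    ext i j : 1
    exact (congrFun (congrArg Subtype.val (hc j)) i).symm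
  exact n (e ▸ (by decide +kernel : ∀ c v : Fin 4 → ZMod 2, φ (of fun i j => c j * v i) = 0 →
    (of fun i j => c j * v i) = 0) c v (e ▸ h))

theorem low (X : M) (h : 2 < (Finset.univ.filter fun u => X *ᵥ u = 0).card) : X.rank ≤ 2 := by
  have a := X.mulVecLin.finrank_range_add_finrank_ker
  have b := natCard_eq_pow_finrank (K := ZMod 2) (V := X.mulVecLin.ker)
  rw [← Fintype.card_subtype, ← Nat.card_eq_fintype_card] at h
  replace h := h.trans_eq b
  simp only [Nat.card_zmod, finrank_fintype_fun_eq_card, Fintype.card_fin] at a h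
  have := (Nat.pow_lt_pow_iff_right (by norm_num)).1 ((pow_one 2).trans_lt h)
  unfold rank
  omega

def enc (c : ℕ) : M := ∑ b ∈ Finset.range 10, if c.testBit b then
  mat 0x85004b002a00120004200b10090803040b020501 b else 0

theorem enc_xor (c d : ℕ) : enc (c ^^^ d) = enc c + enc d := by
  rw [enc, enc, enc, ← Finset.sum_add_distrib]
  refine Finset.sum_congr rfl fun b _ => ?_
  rw [Nat.testBit_xor]
  cases c.testBit b <;> cases d.testBit b <;> simp
  ext i j
  exact (CharTwo.add_self_eq_zero _).symm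

def TB : ℕ := 0x1000200100009125000000014001d0830009000010006b01000810000002344901000005080018a900010104000266030400000002020a59010001040000038b00000001004080b300480010008049510021008000300b25001100040003e015881b00080001844d00020a4d000114c500080002054724336a0990279087fffe

theorem tab : ∀ c < 1024, TB.testBit c → enc c ≠ 0 ∧
    2 < (Finset.univ.filter fun u => enc c *ᵥ u = 0).card := by decide +kernel

def search : ℕ → List ℕ → Bool
  | 0, _ => false
  | k + 1, S => (List.range 16).all fun l => S.any (fun s => TB.testBit (s ^^^ (2 ^ (5 - k) ^^^ 64 * l)))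
      || search k (S ++ S.map (· ^^^ (2 ^ (5 - k) ^^^ 64 * l)))

theorem no (C : AddSubgroup M) (h : ∀ X ∈ C, X ≠ 0 → 3 ≤ X.rank)
    (e : ∀ i < 6, ∃ l < 16, enc (2 ^ i ^^^ 64 * l) ∈ C) :
    ∀ k S, (∀ s ∈ S, enc s ∈ C) → search k S = false
  | 0, _, _ => rfl
  | k + 1, S, hS => by
    obtain ⟨l, hl, m⟩ := e (5 - k) (by omega)
    have n : ∀ s ∈ S, enc (s ^^^ (2 ^ (5 - k) ^^^ 64 * l)) ∈ C := fun s hs =>
      enc_xor _ _ ▸ add_mem (hS s hs) m
    refine List.all_eq_false.2 ⟨l, List.mem_range.2 hl, ?_⟩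
    rw [no C h e k _ fun s hs => by
      obtain a | a := List.mem_append.1 hs
      · exact hS s a
      · obtain ⟨t, b, rfl⟩ := List.mem_map.1 a
        exact n t b, Bool.or_false, List.any_eq_true]
    rintro ⟨s, a, b⟩
    have := tab _ (lt_of_not_ge fun g => by
      rw [Nat.testBit_lt_two_pow ((by decide +kernel : TB < 2 ^ 1024).trans_le
        (Nat.pow_le_pow_right two_pos g))] at b
      cases b) b
    exact absurd ((h _ (n s a) this.1).trans (low _ this.2)) (by norm_num)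

theorem ker : ∀ a b : Fin 4 → ZMod 2, φ (of ![0, 0, a, b]) = 0 →
    ∃ l < 16, of ![0, 0, a, b] = enc (64 * l) ∧
      (l = 0 ∨ 2 < (Finset.univ.filter fun u => enc (64 * l) *ᵥ u = 0).card) := by decide +kernel

theorem ker' (X : M) (h : φ X = 0) (a : X 0 = 0) (b : X 1 = 0) :
    ∃ l < 16, X = enc (64 * l) ∧ (X ≠ 0 → X.rank ≤ 2) := by
  have e : X = of ![0, 0, X 2, X 3] := by
    ext i j
    fin_cases i <;> simp [a, b]
  obtain ⟨l, p, q, r⟩ := ker _ _ (e ▸ h)
  refine ⟨l, p, e.trans q, fun n => low _ ?_⟩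
  rw [e, q] at n ⊢
  exact r.resolve_left fun z => n (by rw [z]; decide +kernel)

theorem result : ∃ (F : Type) (_ : Field F) (_ : Fintype F) (n d : ℕ)
    (C : AddSubgroup (Matrix (Fin n) (Fin n) F)), 1 ≤ d ∧ d < n ∧ MRD C d ∧
    ¬ ∃ C' ≤ C, MRD C' (d + 1) := by
  refine ⟨ZMod 2, inferInstance, inferInstance, 4, 2, φ.ker, by norm_num, by norm_num,
    ⟨⟨?_, ?_⟩, card⟩, fun ⟨C, le, m, c⟩ => ?_⟩
  · have h : φ (enc 64) = 0 := by decide +kernel
    have n : enc 64 ≠ 0 := by decide +kernel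
    refine ⟨enc 64, h, 0, zero_mem _, n, ?_⟩
    rw [sub_zero]
    exact le_antisymm (low _ (by decide +kernel)) (two _ h n)
  · rintro _ ⟨X, p, Y, q, n, rfl⟩
    exact two _ (sub_mem p q) (sub_ne_zero.2 n)
  have h : ∀ X ∈ C, X ≠ 0 → 3 ≤ X.rank := fun X p n => m.2 ⟨X, p, 0, zero_mem _, n, by simp⟩
  have bij : Function.Bijective fun X : C => (X.1 0, X.1 1) :=
    (Nat.bijective_iff_injective_and_card _).2 ⟨fun X Y e => Subtype.ext (by
      by_contra n
      obtain ⟨-, -, -, r⟩ := ker' (X.1 - Y.1) (le (sub_mem X.2 Y.2))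
        (sub_eq_zero.2 (congrArg Prod.fst e)) (sub_eq_zero.2 (congrArg Prod.snd e))
      have := (h _ (sub_mem X.2 Y.2) (sub_ne_zero.2 n)).trans (r (sub_ne_zero.2 n))
      omega), by rw [c]; simp⟩
  refine absurd (no C h (fun i hi => ?_) 6 [0] (by
    simp [show enc 0 = 0 by decide +kernel])) (by decide +kernel)
  obtain ⟨X, e⟩ := bij.2 (enc (2 ^ i) 0, enc (2 ^ i) 1)
  obtain ⟨l, p, q, -⟩ := ker' (X.1 - enc (2 ^ i)) (sub_mem (le X.2) (by
    change φ _ = 0
    interval_cases i <;> decide +kernel)) (sub_eq_zero.2 (congrArg Prod.fst e))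
      (sub_eq_zero.2 (congrArg Prod.snd e))
  exact ⟨l, p, by rw [enc_xor, ← q, add_sub_cancel]; exact X.2⟩

end Pool.Agent.Results.MP_e73581_co.Cex
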